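import Pool.Agent.H83.VS.Forward
import Pool.Agent.H83.VS.Backward

/-!
# The Siemieniec-Oziebło metric and the first Vaidya-Shah class

The Siemieniec-Oziebło metric `(a t² + b r²) (dt² - dr² - r² dΩ²)` is a subcase of the first
Vaidya-Shah class only in the FLRW cases.
-/

open Pool.Agent.H83.VS

namespace Pool.Agent.Results.MP_33d18a_mp.NotSubcase

/-- It is not true that the Siemieniec-Oziebło metric is a subcase of the first Vaidya-Shah class
for all constants `a`, `b` for which the region `a t² + b r² > 0` is nonempty. In fact it is a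
subcase if and only if `a > 0` and `b = 0` or `b = -a`. -/
theorem result :
    (¬ ∀ a b : ℝ, (∃ t r : ℝ, 0 < a * t ^ 2 + b * r ^ 2) → IsSubcase a b) ∧
      ∀ a b : ℝ, IsSubcase a b ↔ 0 < a ∧ (b = 0 ∨ b = -a) := by
  have key : ∀ a b : ℝ, IsSubcase a b ↔ 0 < a ∧ (b = 0 ∨ b = -a) := by
    intro a b
    constructor
    · intro h
      obtain ⟨ha, h0 | h1⟩ := h.imp
      · exact ⟨ha, Or.inl h0⟩
      · exact ⟨ha, Or.inr (by linarith)⟩
    · rintro ⟨ha, h0 | h1⟩
      · exact isSubcase_of ha (Or.inl h0)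
      · exact isSubcase_of ha (Or.inr (by linarith))
  refine ⟨fun h => ?_, key⟩
  obtain ⟨-, h0 | h1⟩ := (key 1 1).1 (h 1 1 ⟨1, 1, by norm_num⟩)
  · norm_num at h0
  · norm_num at h1

end Pool.Agent.Results.MP_33d18a_mp.NotSubcase
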